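import Pool.Agent.Helper1.TE.Goals2

/-!
# Packet TE-EB: the numeric functions of the machine are the functions of the gadget
-/

set_option autoImplicit false

namespace Pool.Agent.Helper82.TE

open Pool.Agent.Helper1.TE
open Pool.Agent.Helper65.LinSpace (dig tab nrec ifz eq01 le01 lt01 capPow dig_lt)
open Finset

theorem gEB : GoalEB := by
  intro hCT h b W hPM hW
  refine ⟨fun p X => ?_, fun p X => ?_, fun X y => ?_⟩
  · unfold shM
    rw [hCT W (PM h b W) (mP h b + 2) _ (fun i _ => Nat.mod_lt _ hPM) hW]
    rfl
  · unfold ushM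
    rw [hCT W (PM h b W) (mP h b + 2) _ (fun i _ => Nat.mod_lt _ hPM) hW]
    rfl
  · unfold addM
    rw [hCT W (PM h b W) (mP h b + 2) _ (fun i _ => ?_) hW]
    · unfold addm tab
      refine Finset.sum_congr rfl (fun i _ => ?_)
      have e : PM h b W = LP h b W + RP h b := rfl
      rw [e]
      by_cases hi : i = mP h b
      · simp [ifz, eq01, hi]
      · simp [ifz, eq01, hi]
    · by_cases hi : i = mP h b
      · simp only [ifz, eq01, hi]
        simpa using Nat.mod_lt _ hPM
      · simp only [ifz, eq01, hi]
        simpa using dig_lt hPM X i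

end Pool.Agent.Helper82.TE
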